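import Pool.Agent.H96.JCT.Stmts

/-!
Row ADD of board jct.
-/

set_option autoImplicit false

namespace Pool.JCT

open Complex Set

namespace AddAux

theorem lift_mono {f : ℝ → Pl} {a b c d : ℝ} {p : Pl} {F : ℝ → ℂ} (h : Lift f a b p F)
    (hs : uIcc c d ⊆ uIcc a b) : Lift f c d p F :=
  ⟨h.1.mono hs, fun t ht => h.2 t (hs ht)⟩

theorem off_mono {f : ℝ → Pl} {a b c d : ℝ} {p : Pl} (h : Off f a b p)
    (hs : uIcc c d ⊆ uIcc a b) : Off f c d p :=
  fun t ht => h t (hs ht)

end AddAux

open AddAux

theorem add_thm (hI : INC_S) : ADD_S := by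
  intro f p hf
  refine ⟨?_, ?_, ?_, ?_⟩
  · intro a ha
    have hoff : Off f a a p := by
      intro t ht
      rw [uIcc_self] at ht
      rw [ht]; exact ha
    obtain ⟨⟨F, hF⟩, hu⟩ := hI f a a p hf hoff
    rw [← hu F hF]; ring
  · intro a b hoff
    obtain ⟨⟨F, hF⟩, hu⟩ := hI f a b p hf hoff
    have hoff' : Off f b a p := off_mono hoff (by rw [uIcc_comm])
    have hF' : Lift f b a p F := lift_mono hF (by rw [uIcc_comm])
    rw [← hu F hF, ← (hI f b a p hf hoff').2 F hF']; ring
  · intro a b c h1 h2
    have hcov : uIcc (min a (min b c)) (max a (max b c)) ⊆ uIcc a b ∪ uIcc b c := by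
      intro t ht
      rw [uIcc_of_le (by
        exact (min_le_left _ _).trans (le_max_left _ _))] at ht
      obtain ⟨l1, l2⟩ := ht
      rw [min_le_iff, min_le_iff] at l1
      rw [le_max_iff, le_max_iff] at l2
      simp only [mem_union, mem_uIcc]
      rcases le_total t b with hb | hb
      · rcases l1 with l1 | l1 | l1
        · left; left; exact ⟨l1, hb⟩
        · have : t = b := le_antisymm hb l1
          subst this
          rcases le_total a t with h | h
          · left; left; exact ⟨h, le_rfl⟩
          · left; right; exact ⟨le_rfl, h⟩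
        · right; right; exact ⟨l1, hb⟩
      · rcases l2 with l2 | l2 | l2
        · left; right; exact ⟨hb, l2⟩
        · have : t = b := le_antisymm l2 hb
          subst this
          rcases le_total a t with h | h
          · left; left; exact ⟨h, le_rfl⟩
          · left; right; exact ⟨le_rfl, h⟩
        · right; left; exact ⟨hb, l2⟩
    have hoff : Off f (min a (min b c)) (max a (max b c)) p := by
      intro t ht
      rcases hcov ht with h | h
      · exact h1 t h
      · exact h2 t h
    obtain ⟨⟨F, hF⟩, -⟩ := hI f _ _ p hf hoff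
    have hle : min a (min b c) ≤ max a (max b c) := (min_le_left _ _).trans (le_max_left _ _)
    have ma : a ∈ uIcc (min a (min b c)) (max a (max b c)) := by
      rw [uIcc_of_le hle]; exact ⟨min_le_left _ _, le_max_left _ _⟩
    have mb : b ∈ uIcc (min a (min b c)) (max a (max b c)) := by
      rw [uIcc_of_le hle]
      exact ⟨(min_le_right _ _).trans (min_le_left _ _), (le_max_left _ _).trans (le_max_right _ _)⟩
    have mc : c ∈ uIcc (min a (min b c)) (max a (max b c)) := by
      rw [uIcc_of_le hle]
      exact ⟨(min_le_right _ _).trans (min_le_right _ _),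
        (le_max_right _ _).trans (le_max_right _ _)⟩
    have sab := uIcc_subset_uIcc ma mb
    have sbc := uIcc_subset_uIcc mb mc
    have sac := uIcc_subset_uIcc ma mc
    rw [← (hI f a b p hf h1).2 F (lift_mono hF sab), ← (hI f b c p hf h2).2 F (lift_mono hF sbc),
      ← (hI f a c p hf (off_mono hoff sac)).2 F (lift_mono hF sac)]
    ring
  · intro a b hoff
    obtain ⟨⟨F, hF⟩, hu⟩ := hI f a b p hf hoff
    rw [← hu F hF, Complex.exp_sub, hF.2 a left_mem_uIcc, hF.2 b right_mem_uIcc]

end Pool.JCT
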